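import Mathlib

/-!
# Ray spaces of order trees: definitions and basic constructions
-/

set_option autoImplicit false

namespace Pool.Agent.R475.Ray

open Set Topology

universe u

/-- Order trees: there is a least element, and for every `t` the set of the elements below `t` is
well-ordered. -/
structure IsOrderTree (T : Type u) [PartialOrder T] : Prop where
  root : ∃ r : T, ∀ t, r ≤ t
  wo : ∀ t : T, IsWellOrder {s : T // s ≤ t} (· < ·)

/-- Rays: nonempty chains which are closed downwards and have no maximal element. -/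
structure IsRay {T : Type u} [PartialOrder T] (R : Set T) : Prop where
  nonempty : R.Nonempty
  chain : ∀ x ∈ R, ∀ y ∈ R, x ≤ y ∨ y ≤ x
  down : ∀ x ∈ R, ∀ y, y ≤ x → y ∈ R
  noMax : ∀ x ∈ R, ∃ y ∈ R, x < y

/-- The ray space. -/
def RaySpace (T : Type u) [PartialOrder T] : Type u := {R : Set T // IsRay R}

open Classical in
/-- The topology of the ray space is the one of the Cantor cube `2^T`. -/
noncomputable instance (T : Type u) [PartialOrder T] : TopologicalSpace (RaySpace T) :=
  TopologicalSpace.induced (fun R : RaySpace T => fun t : T => (decide (t ∈ R.1) : Bool))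
    Pi.topologicalSpace

/-- A topological space is a ray space if it is homeomorphic to the ray space of an order tree. -/
def IsRaySpace (X : Type u) [TopologicalSpace X] : Prop :=
  ∃ (T : Type u) (_ : PartialOrder T), IsOrderTree T ∧ Nonempty (X ≃ₜ RaySpace T)

/-- A topological space is a quasi-ray space if it has a coarser topology which makes it a ray
space. -/
def IsQuasiRaySpace (X : Type u) [τ : TopologicalSpace X] : Prop :=
  ∃ τ' : TopologicalSpace X, (∀ s : Set X, IsOpen[τ'] s → IsOpen[τ] s) ∧ @IsRaySpace X τ'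

section

variable {T : Type u} [PartialOrder T]

open Classical in
lemma continuous_dec {X : Type*} [TopologicalSpace X] (p : X → Prop) :
    Continuous (fun x => (decide (p x) : Bool)) ↔ IsClopen {x | p x} := by
  have h1 : {x | p x} = (fun x => (decide (p x) : Bool)) ⁻¹' {true} := by
    ext x; simp
  have h2 : {x | p x}ᶜ = (fun x => (decide (p x) : Bool)) ⁻¹' {false} := by
    ext x; simp
  rw [continuous_discrete_rng]
  constructor
  · intro h
    refine ⟨⟨?_⟩, ?_⟩
    · rw [h2]; exact h false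
    · rw [h1]; exact h true
  · intro h b
    cases b
    · rw [← h2]; exact h.compl.isOpen
    · rw [← h1]; exact h.isOpen

lemma continuous_iff {X : Type*} [TopologicalSpace X] (f : X → RaySpace T) :
    Continuous f ↔ ∀ t, IsClopen {x | t ∈ (f x).1} := by
  rw [continuous_induced_rng, continuous_pi_iff]
  exact forall_congr' fun t => continuous_dec _

lemma isClopen_mem (t : T) : IsClopen {R : RaySpace T | t ∈ R.1} :=
  (continuous_iff (fun R : RaySpace T => R)).1 continuous_id t

/-- basic neighbourhoods -/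
lemma exists_nhd {U : Set (RaySpace T)} (hU : IsOpen U) {R : RaySpace T} (hR : R ∈ U) :
    ∃ A B : Finset T, (∀ a ∈ A, a ∈ R.1) ∧ (∀ b ∈ B, b ∉ R.1) ∧
      ∀ R' : RaySpace T, (∀ a ∈ A, a ∈ R'.1) → (∀ b ∈ B, b ∉ R'.1) → R' ∈ U := by
  classical
  obtain ⟨V, hV, rfl⟩ := isOpen_induced_iff.1 hU
  rw [isOpen_pi_iff] at hV
  obtain ⟨I, u, hu, hsub⟩ := hV _ hR
  refine ⟨I.filter fun t => t ∈ R.1, I.filter fun t => t ∉ R.1, fun a ha => (Finset.mem_filter.1 ha).2,
    fun b hb => (Finset.mem_filter.1 hb).2, fun R' hA hB => hsub ?_⟩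
  intro i hi
  have h1 : (i ∈ R'.1) ↔ (i ∈ R.1) := by
    constructor
    · intro h
      by_contra hc
      exact hB i (Finset.mem_filter.2 ⟨hi, hc⟩) h
    · intro h
      exact hA i (Finset.mem_filter.2 ⟨hi, h⟩)
  have h2 := (hu i hi).2
  simp only [h1]
  exact h2

end

/-- The characterisation by continuous bijections. -/
def QR (X : Type u) [TopologicalSpace X] : Prop :=
  ∃ (T : Type u) (_ : PartialOrder T), IsOrderTree T ∧
    ∃ f : X → RaySpace T, Continuous f ∧ Function.Bijective f

lemma QR.isQuasiRaySpace {X : Type u} [TopologicalSpace X] (h : QR X) : IsQuasiRaySpace X := by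
  obtain ⟨T, _, hT, f, hf, hfb⟩ := h
  refine ⟨TopologicalSpace.induced f inferInstance, fun s hs => ?_, T, inferInstance, hT, ⟨?_⟩⟩
  · obtain ⟨t, ht, rfl⟩ := isOpen_induced_iff.1 hs
    exact ht.preimage hf
  · let τ' : TopologicalSpace X := TopologicalSpace.induced f inferInstance
    exact (Equiv.ofBijective f hfb).toHomeomorphOfIsInducing ⟨rfl⟩

lemma QR.comp {X Y : Type u} [TopologicalSpace X] [TopologicalSpace Y] (h : QR Y) (g : X → Y)
    (hg : Continuous g) (hb : Function.Bijective g) : QR X := by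
  obtain ⟨T, _, hT, f, hf, hfb⟩ := h
  exact ⟨T, inferInstance, hT, f ∘ g, hf.comp hg, hfb.comp hb⟩

section tree

variable {T : Type u} [PartialOrder T]

lemma IsOrderTree.comparable (hT : IsOrderTree T) {t a b : T} (ha : a ≤ t) (hb : b ≤ t) :
    a ≤ b ∨ b ≤ a := by
  have := hT.wo t
  rcases trichotomous_of (α := {s : T // s ≤ t}) (· < ·) ⟨a, ha⟩ ⟨b, hb⟩ with h | h | h
  · exact Or.inl (le_of_lt h)
  · exact Or.inl (le_of_eq (congrArg Subtype.val h))
  · exact Or.inr (le_of_lt h)

lemma IsOrderTree.wf (hT : IsOrderTree T) : WellFounded ((· < ·) : T → T → Prop) := by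
  refine ⟨fun t => ?_⟩
  have := hT.wo t
  have h1 : WellFounded ((· < ·) : {s : T // s ≤ t} → {s : T // s ≤ t} → Prop) := this.wf
  have h2 : ∀ s : {s : T // s ≤ t}, Acc ((· < ·) : T → T → Prop) s.1 := by
    intro s
    induction s using h1.induction with
    | _ s ih =>
      exact ⟨_, fun y hy => ih ⟨y, hy.le.trans s.2⟩ hy⟩
  exact h2 ⟨t, le_rfl⟩

lemma IsOrderTree.of (root : ∃ r : T, ∀ t, r ≤ t)
    (comp : ∀ t a b : T, a ≤ t → b ≤ t → a ≤ b ∨ b ≤ a)
    (wf : WellFounded ((· < ·) : T → T → Prop)) : IsOrderTree T where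
  root := root
  wo t :=
    { trichotomous := fun a b h1 h2 => by
        rcases comp t a.1 b.1 a.2 b.2 with h | h
        · rcases h.lt_or_eq with h | h
          · exact absurd h h1
          · exact Subtype.ext h
        · rcases h.lt_or_eq with h | h
          · exact absurd h h2
          · exact Subtype.ext h.symm
      wf := InvImage.wf (Subtype.val : {s : T // s ≤ t} → T) wf }

/-- the least element of a set outside of a set -/
lemma exists_least (hT : IsOrderTree T) (R : Set T) {b : T} (hb : b ∉ R) :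
    ∃ c ≤ b, c ∉ R ∧ ∀ y < c, y ∈ R := by
  obtain ⟨c, ⟨hc1, hc2⟩, hmin⟩ := hT.wf.has_min {y | y ≤ b ∧ y ∉ R} ⟨b, le_rfl, hb⟩
  refine ⟨c, hc1, hc2, fun y hy => ?_⟩
  by_contra h
  exact hmin y ⟨hy.le.trans hc1, h⟩ hy

/-- **Subtrees.** -/
theorem QR_subtree (hT : IsOrderTree T) (s : T) (S : Set T) (hs : s ∈ S) (hle : ∀ x ∈ S, s ≤ x)
    (hconv : ∀ x ∈ S, ∀ y, s ≤ y → y ≤ x → y ∈ S) :
    ∃ f : {R : RaySpace T // s ∈ R.1 ∧ ∀ x ∈ R.1, s ≤ x → x ∈ S} → RaySpace S,
      Continuous f ∧ Function.Bijective f ∧ (∀ R x, x ∈ (f R).1 ↔ x.1 ∈ R.1.1) := by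
  let f : {R : RaySpace T // s ∈ R.1 ∧ ∀ x ∈ R.1, s ≤ x → x ∈ S} → RaySpace S := fun R =>
    ⟨{x | x.1 ∈ R.1.1},
      { nonempty := ⟨⟨s, hs⟩, R.2.1⟩
        chain := fun x hx y hy => R.1.2.chain x.1 hx y.1 hy
        down := fun x hx y hy => R.1.2.down x.1 hx y.1 hy
        noMax := fun x hx => by
          obtain ⟨y, hy, hxy⟩ := R.1.2.noMax x.1 hx
          exact ⟨⟨y, R.2.2 y hy ((hle x.1 x.2).trans hxy.le)⟩, hy, hxy⟩ }⟩
  refine ⟨f, ?_, ⟨?_, ?_⟩, fun R x => Iff.rfl⟩
  · rw [continuous_iff]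
    intro t
    exact (isClopen_mem t.1).preimage continuous_subtype_val
  · intro R R' h
    have h1 : ∀ x ∈ S, x ∈ R.1.1 ↔ x ∈ R'.1.1 := by
      intro x hx
      have h2 : (⟨x, hx⟩ : S) ∈ (f R).1 ↔ (⟨x, hx⟩ : S) ∈ (f R').1 := by rw [h]
      exact h2
    apply Subtype.ext
    apply Subtype.ext
    ext x
    constructor
    · intro hx
      rcases R.1.2.chain x hx s R.2.1 with h2 | h2
      · exact R'.1.2.down s R'.2.1 x h2
      · exact (h1 x (R.2.2 x hx h2)).1 hx
    · intro hx
      rcases R'.1.2.chain x hx s R'.2.1 with h2 | h2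
      · exact R.1.2.down s R.2.1 x h2
      · exact (h1 x (R'.2.2 x hx h2)).2 hx
  · intro R
    let R' : RaySpace T := ⟨{y | ∃ x ∈ R.1, y ≤ x.1},
      { nonempty := by
          obtain ⟨x, hx⟩ := R.2.nonempty
          exact ⟨x.1, x, hx, le_rfl⟩
        chain := by
          rintro y ⟨x, hx, hyx⟩ y' ⟨x', hx', hyx'⟩
          rcases R.2.chain x hx x' hx' with h | h
          · exact hT.comparable (hyx.trans h) hyx'
          · exact hT.comparable hyx (hyx'.trans h)
        down := by
          rintro y ⟨x, hx, hyx⟩ z hz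
          exact ⟨x, hx, hz.trans hyx⟩
        noMax := by
          rintro y ⟨x, hx, hyx⟩
          obtain ⟨z, hz, hxz⟩ := R.2.noMax x hx
          exact ⟨z.1, ⟨z, hz, le_rfl⟩, lt_of_le_of_lt hyx hxz⟩ }⟩
    refine ⟨⟨R', ?_, ?_⟩, ?_⟩
    · obtain ⟨x, hx⟩ := R.2.nonempty
      exact ⟨x, hx, hle x.1 x.2⟩
    · rintro y ⟨x, hx, hyx⟩ hsy
      exact hconv x.1 x.2 y hsy hyx
    · apply Subtype.ext
      ext x
      constructor
      · rintro ⟨z, hz, hxz⟩
        exact R.2.down z hz x hxz
      · intro hx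
        exact ⟨x, hx, le_rfl⟩

lemma orderTree_subtree (hT : IsOrderTree T) (s : T) (S : Set T) (hs : s ∈ S)
    (hle : ∀ x ∈ S, s ≤ x) : IsOrderTree S :=
  IsOrderTree.of ⟨⟨s, hs⟩, fun t => hle t.1 t.2⟩
    (fun t a b ha hb => hT.comparable (t := t.1) (a := a.1) (b := b.1) ha hb)
    (InvImage.wf (Subtype.val : S → T) hT.wf)

end tree

/-! ### Grafting -/

section graft

variable {T₁ : Type u} [PartialOrder T₁] {ι : Type u} {F : ι → Type u} [∀ i, PartialOrder (F i)]

/-- The tree obtained by putting the trees `F i` above the chain `D`. -/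
inductive Graft (D : Set T₁) (F : ι → Type u) : Type u
  | inl (a : T₁) : Graft D F
  | inr (x : Σ i, F i) : Graft D F

/-- the order -/
def Graft.le {D : Set T₁} : Graft D F → Graft D F → Prop
  | Graft.inl a, Graft.inl b => a ≤ b
  | Graft.inl a, Graft.inr _ => a ∈ D
  | Graft.inr _, Graft.inl _ => False
  | Graft.inr x, Graft.inr y => x ≤ y

/-- the order; `D` is closed downwards -/
@[reducible] def Graft.partialOrder {D : Set T₁} (hD : ∀ x ∈ D, ∀ y, y ≤ x → y ∈ D) :
    PartialOrder (Graft D F) where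
  le := Graft.le
  le_refl := by
    rintro (a | x)
    · exact le_refl a
    · exact le_refl x
  le_trans := by
    rintro (a | x) (b | y) (c | z) h1 h2
    · exact le_trans (α := T₁) h1 h2
    · exact hD b h2 a h1
    · exact h2.elim
    · exact h1
    · exact h1.elim
    · exact h1.elim
    · exact h2.elim
    · exact le_trans (α := Σ i, F i) h1 h2
  le_antisymm := by
    rintro (a | x) (b | y) h1 h2
    · exact congrArg Graft.inl (le_antisymm (α := T₁) h1 h2)
    · exact h2.elim
    · exact h1.elim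
    · exact congrArg Graft.inr (le_antisymm (α := Σ i, F i) h1 h2)

/-- **Grafting lemma.** -/
theorem QR_graft {X : Type u} [TopologicalSpace X] (h₁ : IsOrderTree T₁) (D : Set T₁)
    (hDn : D.Nonempty) (hDc : ∀ x ∈ D, ∀ y ∈ D, x ≤ y ∨ y ≤ x) (hDd : ∀ x ∈ D, ∀ y, y ≤ x → y ∈ D)
    (P : ι → Set X) (hP : ∀ i, IsClopen (P i)) (hPd : ∀ i j, i ≠ j → Disjoint (P i) (P j))
    (hPq : ∀ i, QR (P i)) (φ : X → Set T₁)
    (hφr : ∀ x, (∀ i, x ∉ P i) → IsRay (φ x))
    (hφi : ∀ x y, (∀ i, x ∉ P i) → (∀ i, y ∉ P i) → φ x = φ y → x = y)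
    (hφs : ∀ R : Set T₁, IsRay R → ∃ x, (∀ i, x ∉ P i) ∧ φ x = R)
    (hφ1 : ∀ t ∉ D, IsClopen {x | (∀ i, x ∉ P i) ∧ t ∈ φ x})
    (hφ2 : ∀ t ∈ D, IsClopen {x | (∃ i, x ∈ P i) ∨ t ∈ φ x}) : QR X := by
  choose F hF hFT f hf hfb using hPq
  let _ : PartialOrder (Graft D F) := Graft.partialOrder hDd
  have hle1 : ∀ a b : T₁, (Graft.inl a : Graft D F) ≤ Graft.inl b ↔ a ≤ b := fun a b => Iff.rfl
  have hle2 : ∀ (a : T₁) (x : Σ i, F i), (Graft.inl a : Graft D F) ≤ Graft.inr x ↔ a ∈ D :=
    fun a b => Iff.rfl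
  have hle3 : ∀ (a : T₁) (x : Σ i, F i), (Graft.inr x : Graft D F) ≤ Graft.inl a ↔ False :=
    fun a b => Iff.rfl
  have hle4 : ∀ (x y : Σ i, F i), (Graft.inr x : Graft D F) ≤ Graft.inr y ↔ x ≤ y := fun a b => Iff.rfl
  have hcmp : ∀ (i : ι) (a b : F i), (⟨i, a⟩ : Σ i, F i) ≤ ⟨i, b⟩ ↔ a ≤ b := by
    intro i a b
    exact Sigma.mk_le_mk_iff
  have hidx : ∀ {x y : Σ i, F i}, x ≤ y → x.1 = y.1 := by
    intro x y h
    cases h
    rfl
  -- the tree
  have htree : IsOrderTree (Graft D F) := by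
    refine IsOrderTree.of ?_ ?_ ?_
    · obtain ⟨r, hr⟩ := h₁.root
      refine ⟨Graft.inl r, ?_⟩
      rintro (a | x)
      · exact hr a
      · obtain ⟨d, hd⟩ := hDn
        exact hDd d hd r (hr d)
    · rintro (t | t) (a | x) (b | y) h2 h3
      · exact h₁.comparable (t := t) h2 h3
      · exact h3.elim
      · exact h2.elim
      · exact h2.elim
      · exact hDc a h2 b h3
      · exact Or.inl h2
      · exact Or.inr h3
      · obtain ⟨i, t⟩ := t
        obtain ⟨j, x⟩ := x
        obtain ⟨k, y⟩ := y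
        obtain rfl : j = i := hidx ((hle4 _ _).1 h2)
        obtain rfl : k = j := hidx ((hle4 _ _).1 h3)
        have h4 := (hcmp _ _ _).1 ((hle4 _ _).1 h2)
        have h5 := (hcmp _ _ _).1 ((hle4 _ _).1 h3)
        rcases (hFT k).comparable h4 h5 with h | h
        · exact Or.inl ((hcmp _ _ _).2 h)
        · exact Or.inr ((hcmp _ _ _).2 h)
    · have hacc1 : ∀ a : T₁, Acc ((· < ·) : Graft D F → Graft D F → Prop) (Graft.inl a) := by
        intro a
        induction a using h₁.wf.induction with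
        | _ a ih =>
          refine ⟨_, ?_⟩
          rintro (b | y) hb
          · exact ih b (lt_iff_le_not_ge.2 ⟨hb.1, fun h => hb.2 h⟩)
          · exact hb.1.elim
      have hacc2 : ∀ i (a : F i), Acc ((· < ·) : Graft D F → Graft D F → Prop)
          (Graft.inr ⟨i, a⟩) := by
        intro i a
        induction a using (hFT i).wf.induction with
        | _ a ih =>
          refine ⟨_, ?_⟩
          rintro (b | ⟨j, y⟩) hb
          · exact hacc1 b
          · obtain rfl : j = i := hidx ((hle4 _ _).1 hb.1)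
            exact ih y (lt_iff_le_not_ge.2 ⟨(hcmp _ _ _).1 hb.1, fun h => hb.2 ((hcmp _ _ _).2 h)⟩)
      refine ⟨?_⟩
      rintro (a | ⟨i, a⟩)
      · exact hacc1 a
      · exact hacc2 i a
  -- the map
  let G : X → Set (Graft D F) := fun x => {t | match t with
    | Graft.inl a => ((∀ i, x ∉ P i) ∧ a ∈ φ x) ∨ ((∃ i, x ∈ P i) ∧ a ∈ D)
    | Graft.inr y => ∃ h : x ∈ P y.1, y.2 ∈ (f y.1 ⟨x, h⟩).1}
  have hGl : ∀ x a, (Graft.inl a : Graft D F) ∈ G x ↔
      ((∀ i, x ∉ P i) ∧ a ∈ φ x) ∨ ((∃ i, x ∈ P i) ∧ a ∈ D) := fun x a => Iff.rfl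
  have hGr : ∀ x y, (Graft.inr y : Graft D F) ∈ G x ↔
      ∃ h : x ∈ P y.1, y.2 ∈ (f y.1 ⟨x, h⟩).1 := fun x a => Iff.rfl
  have huniq : ∀ {x i j}, x ∈ P i → x ∈ P j → i = j := by
    intro x i j hi hj
    by_contra hne
    exact (Set.disjoint_left.1 (hPd i j hne)) hi hj
  have hGray : ∀ x, IsRay (G x) := by
    intro x
    by_cases hx : ∀ i, x ∉ P i
    · have hr := hφr x hx
      have hl : ∀ a, (Graft.inl a : Graft D F) ∈ G x ↔ a ∈ φ x := by
        intro a
        rw [hGl]
        constructor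
        · rintro (h | ⟨⟨i, hi⟩, -⟩)
          · exact h.2
          · exact absurd hi (hx i)
        · intro h
          exact Or.inl ⟨hx, h⟩
      have hr' : ∀ y, (Graft.inr y : Graft D F) ∉ G x := by
        rintro y ⟨h, -⟩
        exact hx _ h
      refine ⟨?_, ?_, ?_, ?_⟩
      · obtain ⟨a, ha⟩ := hr.nonempty
        exact ⟨Graft.inl a, (hl a).2 ha⟩
      · rintro (a | y) ha (b | z) hb
        · exact hr.chain a ((hl a).1 ha) b ((hl b).1 hb)
        · exact absurd hb (hr' z)
        · exact absurd ha (hr' y)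
        · exact absurd ha (hr' y)
      · rintro (a | y) ha (b | z) hb
        · exact (hl b).2 (hr.down a ((hl a).1 ha) b hb)
        · exact hb.elim
        · exact absurd ha (hr' y)
        · exact absurd ha (hr' y)
      · rintro (a | y) ha
        · obtain ⟨b, hb, hab⟩ := hr.noMax a ((hl a).1 ha)
          exact ⟨Graft.inl b, (hl b).2 hb, ⟨hab.le, fun h => absurd h (not_le_of_gt hab)⟩⟩
        · exact absurd ha (hr' y)
    · push Not at hx
      obtain ⟨i, hi⟩ := hx
      have hl : ∀ a, (Graft.inl a : Graft D F) ∈ G x ↔ a ∈ D := by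
        intro a
        rw [hGl]
        constructor
        · rintro (h | ⟨-, h⟩)
          · exact absurd hi (h.1 i)
          · exact h
        · intro h
          exact Or.inr ⟨⟨i, hi⟩, h⟩
      have hr : ∀ j (b : F j), (Graft.inr ⟨j, b⟩ : Graft D F) ∈ G x ↔
          ∃ h : j = i, (h ▸ b) ∈ (f i ⟨x, hi⟩).1 := by
        intro j b
        constructor
        · rintro ⟨h, h'⟩
          obtain rfl : j = i := huniq h hi
          exact ⟨rfl, h'⟩
        · rintro ⟨rfl, h⟩
          exact ⟨hi, h⟩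
      have hR := (f i ⟨x, hi⟩).2
      have hri : ∀ b : F i, (Graft.inr ⟨i, b⟩ : Graft D F) ∈ G x ↔ b ∈ (f i ⟨x, hi⟩).1 := by
        intro b
        rw [hr]
        constructor
        · rintro ⟨_, h⟩
          exact h
        · intro h
          exact ⟨rfl, h⟩
      refine ⟨?_, ?_, ?_, ?_⟩
      · obtain ⟨a, ha⟩ := hDn
        exact ⟨Graft.inl a, (hl a).2 ha⟩
      · rintro (a | ⟨j, y⟩) ha (b | ⟨k, z⟩) hb
        · exact hDc a ((hl a).1 ha) b ((hl b).1 hb)
        · exact Or.inl ((hl a).1 ha)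
        · exact Or.inr ((hl b).1 hb)
        · obtain ⟨rfl, -⟩ := (hr j y).1 ha
          obtain ⟨rfl, -⟩ := (hr k z).1 hb
          rcases hR.chain y ((hri y).1 ha) z ((hri z).1 hb) with h | h
          · exact Or.inl ((hcmp _ _ _).2 h)
          · exact Or.inr ((hcmp _ _ _).2 h)
      · rintro (a | ⟨j, y⟩) ha (b | ⟨k, z⟩) hb
        · exact (hl b).2 (hDd a ((hl a).1 ha) b hb)
        · exact hb.elim
        · exact (hl b).2 hb
        · obtain ⟨rfl, -⟩ := (hr j y).1 ha
          obtain rfl : k = j := hidx ((hle4 _ _).1 hb)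
          exact (hri z).2 (hR.down y ((hri y).1 ha) z ((hcmp _ _ _).1 hb))
      · rintro (a | ⟨j, y⟩) ha
        · obtain ⟨b, hb⟩ := hR.nonempty
          exact ⟨Graft.inr ⟨i, b⟩, (hri b).2 hb, ⟨(hl a).1 ha, fun h => h.elim⟩⟩
        · obtain ⟨rfl, -⟩ := (hr j y).1 ha
          obtain ⟨z, hz, hyz⟩ := hR.noMax y ((hri y).1 ha)
          exact ⟨Graft.inr ⟨j, z⟩, (hri z).2 hz, ⟨(hcmp _ _ _).2 hyz.le,
            fun h => absurd ((hcmp _ _ _).1 h) (not_le_of_gt hyz)⟩⟩
  let g : X → RaySpace (Graft D F) := fun x => ⟨G x, hGray x⟩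
  refine ⟨Graft D F, inferInstance, htree, g, ?_, ?_, ?_⟩
  · rw [continuous_iff]
    rintro (a | ⟨i, b⟩)
    · by_cases ha : a ∈ D
      · convert hφ2 a ha using 1
        ext x
        show (Graft.inl a : Graft D F) ∈ G x ↔ _
        rw [hGl]
        constructor
        · rintro (h | h)
          · exact Or.inr h.2
          · exact Or.inl h.1
        · intro h
          by_cases hx : ∃ i, x ∈ P i
          · exact Or.inr ⟨hx, ha⟩
          · rcases h with h | h
            · exact absurd h hx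
            · push Not at hx
              exact Or.inl ⟨hx, h⟩
      · convert hφ1 a ha using 1
        ext x
        show (Graft.inl a : Graft D F) ∈ G x ↔ _
        rw [hGl]
        constructor
        · rintro (h | h)
          · exact h
          · exact absurd h.2 ha
        · intro h
          exact Or.inl h
    · have h1 : {x | (Graft.inr ⟨i, b⟩ : Graft D F) ∈ G x} =
          Subtype.val '' {y : P i | b ∈ (f i y).1} := by
        ext x
        constructor
        · rintro ⟨h, h'⟩
          exact ⟨⟨x, h⟩, h', rfl⟩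
        · rintro ⟨y, hy, rfl⟩
          exact ⟨y.2, hy⟩
      have h2 := (continuous_iff (f i)).1 (hf i) b
      show IsClopen {x | (Graft.inr ⟨i, b⟩ : Graft D F) ∈ G x}
      rw [h1]
      exact ⟨(hP i).isClosed.isClosedMap_subtype_val _ h2.isClosed,
        (hP i).isOpen.isOpenMap_subtype_val _ h2.isOpen⟩
  · intro x y hxy
    have hG : G x = G y := congrArg Subtype.val hxy
    have key : ∀ x y, G x = G y → ∀ i, x ∈ P i → x = y := by
      intro x y hG i hi
      obtain ⟨b, hb⟩ := (f i ⟨x, hi⟩).2.nonempty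
      have h1 : (Graft.inr ⟨i, b⟩ : Graft D F) ∈ G x := ⟨hi, hb⟩
      rw [hG] at h1
      obtain ⟨hi', -⟩ := h1
      have h2 : f i ⟨x, hi⟩ = f i ⟨y, hi'⟩ := by
        apply Subtype.ext
        ext b
        constructor
        · intro hb
          have h3 : (Graft.inr ⟨i, b⟩ : Graft D F) ∈ G x := ⟨hi, hb⟩
          rw [hG] at h3
          exact h3.2
        · intro hb
          have h3 : (Graft.inr ⟨i, b⟩ : Graft D F) ∈ G y := ⟨hi', hb⟩
          rw [← hG] at h3
          exact h3.2
      exact congrArg Subtype.val ((hfb i).1 h2)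
    by_cases hx : ∃ i, x ∈ P i
    · obtain ⟨i, hi⟩ := hx
      exact key x y hG i hi
    · by_cases hy : ∃ i, y ∈ P i
      · obtain ⟨i, hi⟩ := hy
        exact (key y x hG.symm i hi).symm
      · push Not at hx hy
        refine hφi x y hx hy ?_
        ext a
        constructor
        · intro ha
          have h1 : (Graft.inl a : Graft D F) ∈ G x := Or.inl ⟨hx, ha⟩
          rw [hG, hGl] at h1
          rcases h1 with h1 | ⟨⟨i, hi⟩, -⟩
          · exact h1.2
          · exact absurd hi (hy i)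
        · intro ha
          have h1 : (Graft.inl a : Graft D F) ∈ G y := Or.inl ⟨hy, ha⟩
          rw [← hG, hGl] at h1
          rcases h1 with h1 | ⟨⟨i, hi⟩, -⟩
          · exact h1.2
          · exact absurd hi (hx i)
  · intro R
    by_cases hR : ∃ y, (Graft.inr y : Graft D F) ∈ R.1
    · obtain ⟨⟨i, y⟩, hy⟩ := hR
      have hl : ∀ a, (Graft.inl a : Graft D F) ∈ R.1 ↔ a ∈ D := by
        intro a
        constructor
        · intro ha
          rcases R.2.chain _ ha _ hy with h | h
          · exact h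
          · exact h.elim
        · intro ha
          exact R.2.down _ hy _ ha
      have hi : ∀ j b, (Graft.inr ⟨j, b⟩ : Graft D F) ∈ R.1 → j = i := by
        intro j b hb
        rcases R.2.chain _ hb _ hy with h | h
        · exact hidx ((hle4 _ _).1 h)
        · exact (hidx ((hle4 _ _).1 h)).symm
      let Ri : RaySpace (F i) := ⟨{b | (Graft.inr ⟨i, b⟩ : Graft D F) ∈ R.1},
        { nonempty := ⟨y, hy⟩
          chain := fun a ha b hb => by
            rcases R.2.chain _ ha _ hb with h | h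
            · exact Or.inl ((hcmp _ _ _).1 h)
            · exact Or.inr ((hcmp _ _ _).1 h)
          down := fun a ha b hb => R.2.down _ ha _ ((hcmp _ _ _).2 hb)
          noMax := fun a ha => by
            obtain ⟨z, hz, haz⟩ := R.2.noMax _ ha
            rcases z with z | ⟨j, z⟩
            · exact haz.1.elim
            · obtain rfl : j = i := hi j z hz
              exact ⟨z, hz, lt_iff_le_not_ge.2 ⟨(hcmp _ _ _).1 haz.1,
                fun h => haz.2 ((hcmp _ _ _).2 h)⟩⟩ }⟩
      obtain ⟨x, hx⟩ := (hfb i).2 Ri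
      refine ⟨x.1, Subtype.ext ?_⟩
      ext t
      rcases t with a | ⟨j, b⟩
      · show (Graft.inl a : Graft D F) ∈ G x.1 ↔ _
        rw [hl, hGl]
        constructor
        · rintro (h | h)
          · exact absurd x.2 (h.1 i)
          · exact h.2
        · intro h
          exact Or.inr ⟨⟨i, x.2⟩, h⟩
      · show (Graft.inr ⟨j, b⟩ : Graft D F) ∈ G x.1 ↔ _
        constructor
        · rintro ⟨h, h'⟩
          obtain rfl : j = i := huniq h x.2
          have h2 : b ∈ (f j x).1 := h'
          rw [hx] at h2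
          exact h2
        · intro h
          obtain rfl : j = i := hi j b h
          have h2 : b ∈ Ri.1 := h
          rw [← hx] at h2
          exact ⟨x.2, h2⟩
    · push Not at hR
      obtain ⟨x, hx, hxR⟩ := hφs {a | (Graft.inl a : Graft D F) ∈ R.1}
        { nonempty := by
            obtain ⟨a | y, ha⟩ := R.2.nonempty
            · exact ⟨a, ha⟩
            · exact absurd ha (hR y)
          chain := fun a ha b hb => R.2.chain _ ha _ hb
          down := fun a ha b hb => R.2.down _ ha _ hb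
          noMax := fun a ha => by
            obtain ⟨z, hz, haz⟩ := R.2.noMax _ ha
            rcases z with z | y
            · exact ⟨z, hz, lt_iff_le_not_ge.2 ⟨haz.1, fun h => haz.2 h⟩⟩
            · exact absurd hz (hR y) }
      refine ⟨x, Subtype.ext ?_⟩
      ext t
      rcases t with a | y
      · show (Graft.inl a : Graft D F) ∈ G x ↔ _
        rw [hGl, hxR]
        constructor
        · rintro (h | ⟨⟨i, hi⟩, -⟩)
          · exact h.2
          · exact absurd hi (hx i)
        · intro h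
          exact Or.inl ⟨hx, h⟩
      · show (Graft.inr y : Graft D F) ∈ G x ↔ _
        constructor
        · rintro ⟨h, -⟩
          exact absurd h (hx _)
        · intro h
          exact absurd h (hR y)

end graft

/-- **Sums.** -/
theorem QR_sum {X : Type u} [TopologicalSpace X] {ι : Type u} (P : ι → Set X)
    (hP : ∀ i, IsOpen (P i)) (hPd : ∀ i j, i ≠ j → Disjoint (P i) (P j))
    (hPu : ∀ x, ∃ i, x ∈ P i) (hPq : ∀ i, QR (P i)) : QR X := by
  have hc : ∀ i, IsClopen (P i) := by
    intro i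
    refine ⟨⟨?_⟩, hP i⟩
    have h : (P i)ᶜ = ⋃ j : {j // j ≠ i}, P j.1 := by
      ext x
      rw [mem_iUnion]
      constructor
      · intro hx
        obtain ⟨j, hj⟩ := hPu x
        refine ⟨⟨j, ?_⟩, hj⟩
        rintro rfl
        exact hx hj
      · rintro ⟨⟨j, hj⟩, hx⟩ hx'
        exact (Set.disjoint_left.1 (hPd j i hj)) hx hx'
    rw [h]
    exact isOpen_iUnion fun j => hP _
  refine QR_graft (T₁ := PUnit.{u+1}) (IsOrderTree.of ⟨PUnit.unit, fun _ => le_rfl⟩
    (fun _ _ _ _ _ => Or.inl le_rfl) ⟨fun a => ⟨a, fun b hb => absurd hb (lt_irrefl _)⟩⟩) univ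
    ⟨PUnit.unit, mem_univ _⟩ (fun _ _ _ _ => Or.inl le_rfl) (fun _ _ _ _ => mem_univ _) P hc hPd
    hPq (fun _ => ∅) ?_ ?_ ?_ ?_ ?_
  · intro x hx
    obtain ⟨i, hi⟩ := hPu x
    exact absurd hi (hx i)
  · intro x y hx
    obtain ⟨i, hi⟩ := hPu x
    exact absurd hi (hx i)
  · intro R hR
    obtain ⟨x, hx⟩ := hR.nonempty
    obtain ⟨y, -, hy⟩ := hR.noMax x hx
    exact absurd hy (lt_irrefl _)
  · intro t ht
    exact absurd (mem_univ t) ht
  · intro t _
    convert isClopen_univ using 1
    rw [eq_univ_iff_forall]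
    intro x
    exact Or.inl (hPu x)

end Pool.Agent.R475.Ray
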