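import Pool.Agent.R475.Ray.Basic

/-!
# Open subspaces of ray spaces are quasi-ray spaces
-/

set_option autoImplicit false

namespace Pool.Agent.R475.Ray

open Set Topology

universe u

variable {T : Type u} [PartialOrder T]

theorem QR_of_embedding (hT : IsOrderTree T) (s : T) (S : Set T) (hs : s ∈ S)
    (hle : ∀ x ∈ S, s ≤ x) (hconv : ∀ x ∈ S, ∀ y, s ≤ y → y ≤ x → y ∈ S) {V : Type u}
    [TopologicalSpace V] (e : V → RaySpace T) (he : Continuous e) (hi : Function.Injective e)
    (hr : ∀ R : RaySpace T, (∃ v, e v = R) ↔ (s ∈ R.1 ∧ ∀ x ∈ R.1, s ≤ x → x ∈ S)) : QR V := by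
  obtain ⟨f, hf, hfb, -⟩ := QR_subtree hT s S hs hle hconv
  have h1 : QR {R : RaySpace T // s ∈ R.1 ∧ ∀ x ∈ R.1, s ≤ x → x ∈ S} :=
    ⟨S, inferInstance, orderTree_subtree hT s S hs hle, f, hf, hfb⟩
  refine h1.comp (fun v => ⟨e v, (hr _).1 ⟨v, rfl⟩⟩) (he.subtype_mk _) ⟨?_, ?_⟩
  · intro v w hvw
    exact hi (congrArg Subtype.val hvw)
  · rintro ⟨R, hR⟩
    obtain ⟨v, hv⟩ := (hr R).2 hR
    exact ⟨v, Subtype.ext hv⟩

/-- **Removing a point.** -/
theorem QR_remove (hT : IsOrderTree T) (C : RaySpace T) : QR {R : RaySpace T // R ≠ C} := by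
  classical
  obtain ⟨r, hr⟩ := hT.root
  have hroot : ∀ R : RaySpace T, r ∈ R.1 := by
    intro R
    obtain ⟨x, hx⟩ := R.2.nonempty
    exact R.2.down x hx r (hr x)
  -- a sequence in `C`
  obtain ⟨c, hc0, hcC, hclt⟩ : ∃ c : ℕ → T, c 0 = r ∧ (∀ n, c n ∈ C.1) ∧ ∀ n, c n < c (n + 1) := by
    choose g hg hg' using fun x : C.1 => C.2.noMax x.1 x.2
    let c : ℕ → C.1 := fun n => Nat.rec ⟨r, hroot C⟩ (fun _ x => ⟨g x, hg x⟩) n
    exact ⟨fun n => (c n).1, rfl, fun n => (c n).2, fun n => hg' (c n)⟩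
  have hcmono : StrictMono c := strictMono_nat_of_lt_succ hclt
  let p : Set T := {y | ∃ n, y ≤ c n}
  have hpC : ∀ y ∈ p, y ∈ C.1 := by
    rintro y ⟨n, hn⟩
    exact C.2.down _ (hcC n) y hn
  have hpdown : ∀ x ∈ p, ∀ y, y ≤ x → y ∈ p := by
    rintro x ⟨n, hn⟩ y hy
    exact ⟨n, hy.trans hn⟩
  have hcp : ∀ n, c n ∈ p := fun n => ⟨n, le_rfl⟩
  have hpray : IsRay p :=
    { nonempty := ⟨c 0, hcp 0⟩
      chain := fun x hx y hy => C.2.chain x (hpC x hx) y (hpC y hy)
      down := hpdown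
      noMax := by
        rintro x ⟨n, hn⟩
        exact ⟨c (n + 1), hcp _, lt_of_le_of_lt hn (hclt n)⟩ }
  let X : Type u := {R : RaySpace T // R ≠ C}
  let Q : Type u := {q : T // q ∉ C.1 ∧ (∀ y, y < q → y ∈ p) ∧ ∀ y ∈ p, y < q}
  let P : ULift.{u} ℕ ⊕ Q → Set X := fun i => match i with
    | Sum.inl n => {R | c n.down ∈ R.1.1 ∧ c (n.down + 1) ∉ R.1.1}
    | Sum.inr q => {R | q.1 ∈ R.1.1}
  have hval : Continuous (fun R : X => R.1) := continuous_subtype_val
  have hP : ∀ i, IsClopen (P i) := by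
    rintro (n | q)
    · exact ((isClopen_mem (c n.down)).preimage hval).inter
        ((isClopen_mem (c (n.down + 1))).preimage hval).compl
    · exact (isClopen_mem q.1).preimage hval
  have hPd : ∀ i j, i ≠ j → Disjoint (P i) (P j) := by
    have hnm : ∀ n m : ULift.{u} ℕ, n.down < m.down → Disjoint (P (Sum.inl n)) (P (Sum.inl m)) := by
      intro n m hnm
      rw [Set.disjoint_left]
      rintro R ⟨-, h1⟩ ⟨h2, -⟩
      exact h1 (R.1.2.down _ h2 _ (hcmono.monotone hnm))
    have hnq : ∀ (n : ULift.{u} ℕ) (q : Q), Disjoint (P (Sum.inl n)) (P (Sum.inr q)) := by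
      intro n q
      rw [Set.disjoint_left]
      rintro R ⟨-, h1⟩ h2
      exact h1 (R.1.2.down _ h2 _ (q.2.2.2 _ (hcp _)).le)
    rintro (n | q) (m | q') hij
    · have hne : n.down ≠ m.down := fun h => hij (congrArg Sum.inl (ULift.ext _ _ h))
      rcases lt_or_gt_of_ne hne with h | h
      · exact hnm n m h
      · exact (hnm m n h).symm
    · exact hnq n q'
    · exact (hnq m q).symm
    · rw [Set.disjoint_left]
      intro R h1 h2
      apply hij
      have h1' : q.1 ∈ R.1.1 := h1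
      have h2' : q'.1 ∈ R.1.1 := h2
      congr 1
      apply Subtype.ext
      rcases R.1.2.chain _ h1' _ h2' with h | h
      · rcases h.lt_or_eq with h | h
        · exact absurd (q.2.2.2 _ (q'.2.2.1 _ h)) (lt_irrefl _)
        · exact h
      · rcases h.lt_or_eq with h | h
        · exact absurd (q'.2.2.2 _ (q.2.2.1 _ h)) (lt_irrefl _)
        · exact h.symm
  have hPq : ∀ i, QR (P i) := by
    rintro (n | q)
    · refine QR_of_embedding hT (c n.down) {x | c n.down ≤ x ∧ ¬ c (n.down + 1) ≤ x}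
        ⟨le_rfl, not_le_of_gt (hclt _)⟩ (fun x hx => hx.1)
        (fun x hx y h1 h2 => ⟨h1, fun h => hx.2 (h.trans h2)⟩)
        (fun v : P (Sum.inl n) => v.1.1) (hval.comp continuous_subtype_val)
        (fun v w h => Subtype.ext (Subtype.ext h)) ?_
      intro R
      constructor
      · rintro ⟨v, rfl⟩
        exact ⟨v.2.1, fun x hx h1 => ⟨h1, fun h2 => v.2.2 (v.1.1.2.down x hx _ h2)⟩⟩
      · rintro ⟨h1, h2⟩
        have h3 : c (n.down + 1) ∉ R.1 := fun h => (h2 _ h (hclt _).le).2 le_rfl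
        exact ⟨⟨⟨R, fun h => h3 (by rw [h]; exact hcC _)⟩, h1, h3⟩, rfl⟩
    · refine QR_of_embedding hT q.1 {x | q.1 ≤ x} le_rfl (fun x hx => hx)
        (fun x hx y h1 h2 => h1)
        (fun v : P (Sum.inr q) => v.1.1) (hval.comp continuous_subtype_val)
        (fun v w h => Subtype.ext (Subtype.ext h)) ?_
      intro R
      constructor
      · rintro ⟨v, rfl⟩
        exact ⟨v.2, fun x hx h1 => h1⟩
      · rintro ⟨h1, -⟩
        exact ⟨⟨⟨R, fun h => q.2.1
          ((congrArg (fun R' : RaySpace T => q.1 ∈ R'.1) h).mp h1)⟩, h1⟩, rfl⟩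
  -- points outside of the pieces
  have hall : ∀ R : X, (∀ i, R ∉ P i) → ∀ n, c n ∈ R.1.1 := by
    intro R hR n
    induction n with
    | zero => rw [hc0]; exact hroot _
    | succ n ih =>
      by_contra h
      exact hR (Sum.inl ⟨n⟩) ⟨ih, h⟩
  have hpsub : ∀ R : X, (∀ i, R ∉ P i) → ∀ y ∈ p, y ∈ R.1.1 := by
    rintro R hR y ⟨n, hn⟩
    exact R.1.2.down _ (hall R hR n) y hn
  have htop : ∀ (R : RaySpace T), (∀ y ∈ p, y ∈ R.1) → ∀ q ∈ R.1, q ∉ p → ∀ y ∈ p, y < q := by
    intro R hpR q hq hqp y hy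
    rcases R.2.chain q hq y (hpR y hy) with h | h
    · exact absurd (hpdown y hy q h) hqp
    · rcases h.lt_or_eq with h | h
      · exact h
      · exact absurd (h ▸ hy) hqp
  by_cases hcase : ∀ y ∈ C.1, y ∈ p
  · -- the sequence is cofinal in `C`
    refine QR_sum P (fun i => (hP i).isOpen) hPd ?_ hPq
    intro R
    by_contra hR
    push Not at hR
    have h1 := hpsub R hR
    have h2 : ∃ x ∈ R.1.1, x ∉ p := by
      by_contra h
      push Not at h
      apply R.2
      apply Subtype.ext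
      ext x
      exact ⟨fun hx => hpC x (h x hx), fun hx => h1 x (hcase x hx)⟩
    obtain ⟨x, hx, hxp⟩ := h2
    obtain ⟨q, hqx, hqp, hq⟩ := exists_least hT p hxp
    have hqR : q ∈ R.1.1 := R.1.2.down x hx q hqx
    exact hR (Sum.inr ⟨q, fun h => hqp (hcase q h), hq, htop R.1 h1 q hqR hqp⟩) hqR
  · push Not at hcase
    obtain ⟨y, hyC, hyp⟩ := hcase
    obtain ⟨k, hky, hkp, hk⟩ := exists_least hT p hyp
    have hkC : k ∈ C.1 := C.2.down y hyC k hky
    have hpk : ∀ z ∈ p, z < k := htop C hpC k hkC hkp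
    have hkP : ∀ R : X, k ∈ R.1.1 → ∀ i, R ∉ P i := by
      rintro R hR (n | q) hRi
      · exact hRi.2 (R.1.2.down k hR _ (hpk _ (hcp _)).le)
      · have hRi' : q.1 ∈ R.1.1 := hRi
        rcases R.1.2.chain k hR q.1 hRi' with h | h
        · rcases h.lt_or_eq with h | h
          · exact hkp (q.2.2.1 k h)
          · exact q.2.1 (h ▸ hkC)
        · exact q.2.1 (C.2.down k hkC q.1 h)
    have hout : ∀ R : X, (∀ i, R ∉ P i) → k ∉ R.1.1 → R.1.1 = p := by
      intro R hR hkR
      have h1 := hpsub R hR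
      ext x
      refine ⟨fun hx => ?_, h1 x⟩
      by_contra hxp
      obtain ⟨q, hqx, hqp, hq⟩ := exists_least hT p hxp
      have hqR : q ∈ R.1.1 := R.1.2.down x hx q hqx
      by_cases hqC : q ∈ C.1
      · rcases C.2.chain q hqC k hkC with h | h
        · rcases h.lt_or_eq with h | h
          · exact hqp (hk q h)
          · exact hkR (h ▸ hqR)
        · exact hkR (R.1.2.down q hqR k h)
      · exact hR (Sum.inr ⟨q, hqC, hq, htop R.1 h1 q hqR hqp⟩) hqR
    let S : Set T := {x | k ≤ x}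
    obtain ⟨f, hf, hfb, hfm⟩ := QR_subtree hT k S le_rfl (fun x hx => hx) (fun x hx y h1 _ => h1)
    have hSt : IsOrderTree S := orderTree_subtree hT k S le_rfl (fun x hx => hx)
    let D : Set S := {x | x.1 ∈ C.1}
    let φ : X → Set S := fun R => {x | x.1 ∈ R.1.1 ∨ (k ∉ R.1.1 ∧ x.1 ∈ C.1)}
    have hφk : ∀ R : X, (hR : k ∈ R.1.1) → φ R = (f ⟨R.1, hR, fun x _ h => h⟩).1 := by
      intro R hR
      ext x
      rw [hfm]
      constructor
      · rintro (h | h)
        · exact h
        · exact absurd hR h.1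
      · intro h
        exact Or.inl h
    have hφp : ∀ R : X, R.1.1 = p → φ R = (f ⟨C, hkC, fun x _ h => h⟩).1 := by
      intro R hR
      ext x
      rw [hfm]
      constructor
      · rintro (h | h)
        · rw [hR] at h
          exact hpC _ h
        · exact h.2
      · intro h
        refine Or.inr ⟨?_, h⟩
        rw [hR]
        exact hkp
    refine QR_graft hSt D ⟨⟨k, le_rfl⟩, hkC⟩ (fun x hx y hy => C.2.chain x.1 hx y.1 hy)
      (fun x hx y hy => C.2.down x.1 hx y.1 hy) P hP hPd hPq φ ?_ ?_ ?_ ?_ ?_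
    · intro R hR
      by_cases h : k ∈ R.1.1
      · rw [hφk R h]
        exact (f _).2
      · rw [hφp R (hout R hR h)]
        exact (f _).2
    · intro R R' hR hR' hRR
      by_cases h : k ∈ R.1.1
      · by_cases h' : k ∈ R'.1.1
        · rw [hφk R h, hφk R' h'] at hRR
          have h5 := hfb.1 (Subtype.ext hRR)
          have h6 : R.1 = R'.1 := congrArg
            (fun z : {R : RaySpace T // k ∈ R.1 ∧ ∀ x ∈ R.1, k ≤ x → x ∈ S} => z.1) h5
          exact Subtype.ext h6
        · rw [hφk R h, hφp R' (hout R' hR' h')] at hRR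
          exact absurd (congrArg Subtype.val (hfb.1 (Subtype.ext hRR))) R.2
      · by_cases h' : k ∈ R'.1.1
        · rw [hφp R (hout R hR h), hφk R' h'] at hRR
          exact absurd (congrArg Subtype.val (hfb.1 (Subtype.ext hRR))).symm R'.2
        · apply Subtype.ext
          apply Subtype.ext
          rw [hout R hR h, hout R' hR' h']
    · intro R₁ hR₁
      obtain ⟨R, hR⟩ := hfb.2 ⟨R₁, hR₁⟩
      have hR' : (f R).1 = R₁ := congrArg Subtype.val hR
      by_cases h : R.1 = C
      · have hpne : (⟨p, hpray⟩ : RaySpace T) ≠ C := by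
          intro h'
          apply hkp
          have h2 : p = C.1 := congrArg Subtype.val h'
          rw [h2]; exact hkC
        refine ⟨⟨⟨p, hpray⟩, hpne⟩, ?_, ?_⟩
        · rintro (n | q) hi
          · exact hi.2 (hcp _)
          · exact q.2.1 (hpC _ hi)
        · rw [hφp _ rfl, ← hR']
          congr 2
          exact Subtype.ext h.symm
      · refine ⟨⟨R.1, h⟩, hkP _ R.2.1, ?_⟩
        rw [hφk _ R.2.1, ← hR']
    · intro t ht
      convert (isClopen_mem t.1).preimage hval using 1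
      ext R
      constructor
      · rintro ⟨-, h | h⟩
        · exact h
        · exact absurd h.2 ht
      · intro h
        exact ⟨hkP R (R.1.2.down _ h k t.2), Or.inl h⟩
    · intro t ht
      have h1 : {x : X | (∃ i, x ∈ P i) ∨ t ∈ φ x} =
          {R : X | k ∈ R.1.1}ᶜ ∪ {R : X | t.1 ∈ R.1.1} := by
        ext R
        constructor
        · rintro (⟨i, hi⟩ | h | h)
          · left
            intro h
            exact hkP R h i hi
          · exact Or.inr h
          · exact Or.inl h.1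
        · rintro (h | h)
          · exact Or.inr (Or.inr ⟨h, ht⟩)
          · exact Or.inr (Or.inl h)
      rw [h1]
      exact ((isClopen_mem k).preimage hval).compl.union ((isClopen_mem t.1).preimage hval)

theorem QR_of_embedding' (hT : IsOrderTree T) (s : T) (S : Set T) (hs : s ∈ S)
    (hle : ∀ x ∈ S, s ≤ x) (hconv : ∀ x ∈ S, ∀ y, s ≤ y → y ≤ x → y ∈ S) {V : Type u}
    [TopologicalSpace V] (e : V → RaySpace T) (he : Continuous e) (hi : Function.Injective e)
    (R₀ : RaySpace T) (h₀ : s ∈ R₀.1 ∧ ∀ x ∈ R₀.1, s ≤ x → x ∈ S)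
    (hr : ∀ R : RaySpace T, (∃ v, e v = R) ↔
      ((s ∈ R.1 ∧ ∀ x ∈ R.1, s ≤ x → x ∈ S) ∧ R ≠ R₀)) : QR V := by
  obtain ⟨f, hf, hfb, -⟩ := QR_subtree hT s S hs hle hconv
  have h1 := QR_remove (orderTree_subtree hT s S hs hle) (f ⟨R₀, h₀⟩)
  refine h1.comp (fun v => ⟨f ⟨e v, ((hr _).1 ⟨v, rfl⟩).1⟩, fun h =>
    ((hr _).1 ⟨v, rfl⟩).2 (congrArg Subtype.val (hfb.1 h))⟩) ((hf.comp (he.subtype_mk _)).subtype_mk _)
    ⟨?_, ?_⟩
  · intro v w hvw
    exact hi (congrArg Subtype.val (hfb.1 (congrArg Subtype.val hvw)))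
  · rintro ⟨R, hR⟩
    obtain ⟨R', rfl⟩ := hfb.2 R
    obtain ⟨v, hv⟩ := (hr R'.1).2 ⟨R'.2, fun h => hR (by
      congr 1
      exact Subtype.ext h)⟩
    refine ⟨v, Subtype.ext ?_⟩
    exact congrArg f (Subtype.ext hv)

/-- **Open subspaces of ray spaces.** -/
theorem QR_open (hT : IsOrderTree T) (U : Set (RaySpace T)) (hU : IsOpen U) : QR U := by
  classical
  let tr : T → Prop := fun t => ∃ R : RaySpace T, R ∉ U ∧ t ∈ R.1
  let cls : T → T → Prop := fun s x => ∀ R : RaySpace T, R ∉ U → (s ∈ R.1 ↔ x ∈ R.1)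
  let L : T → Set T := fun s => {y | ∃ x, y ≤ x ∧ cls s x}
  have hcr : ∀ s, cls s s := fun s R _ => Iff.rfl
  have hcs : ∀ {s x}, cls s x → cls x s := fun h R hR => (h R hR).symm
  have hct : ∀ {s x y}, cls s x → cls x y → cls s y := fun h h' R hR => (h R hR).trans (h' R hR)
  have hLle : ∀ {s y}, y ≤ s → y ∈ L s := fun {s y} h => ⟨s, h, hcr s⟩
  have hLsub : ∀ (s : T) (R : RaySpace T), R ∉ U → s ∈ R.1 → ∀ y ∈ L s, y ∈ R.1 := by
    rintro s R hR hs y ⟨x, hyx, hx⟩
    exact R.2.down x ((hx R hR).1 hs) y hyx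
  have htr : ∀ {x y}, y ≤ x → tr x → tr y := by
    rintro x y h ⟨R, hR, hx⟩
    exact ⟨R, hR, R.2.down x hx y h⟩
  have hntr : ∀ {t} {R : RaySpace T}, ¬ tr t → t ∈ R.1 → R ∈ U := by
    intro t R h1 h2
    by_contra h
    exact h1 ⟨R, h, h2⟩
  let M : Type u := {s : T // tr s ∧ ∀ y < s, ¬ cls s y}
  let E : Type u := {t : T // ¬ tr t ∧ (∀ y < t, tr y) ∧
    ∀ s : M, ¬ (s.1 < t ∧ ∀ y < t, y ∈ L s.1)}
  let P : M ⊕ E → Set (RaySpace T) := fun i => match i with
    | Sum.inl s => {R | R ∈ U ∧ s.1 ∈ R.1 ∧ ∀ x ∈ R.1, tr x → x ∈ L s.1}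
    | Sum.inr t => {R | R ∈ U ∧ t.1 ∈ R.1}
  -- the pieces are open
  have hPo : ∀ i, IsOpen (P i) := by
    rintro (s | t)
    · rw [isOpen_iff_forall_mem_open]
      rintro R ⟨hRU, hsR, hRL⟩
      by_cases hcase : ∃ x ∈ R.1, ¬ tr x
      · obtain ⟨x, hx, hxt⟩ := hcase
        refine ⟨{R' | s.1 ∈ R'.1} ∩ {R' | x ∈ R'.1}, ?_,
          (isClopen_mem _).isOpen.inter (isClopen_mem _).isOpen, ⟨hsR, hx⟩⟩
        rintro R' ⟨h1, h2⟩
        refine ⟨hntr hxt h2, h1, fun y hy hyt => ?_⟩
        rcases R'.2.chain y hy x h2 with h | h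
        · exact hRL y (R.2.down x hx y h) hyt
        · exact absurd (htr h hyt) hxt
      · push Not at hcase
        obtain ⟨A, B, hA, hB, hAB⟩ := exists_nhd hU hRU
        choose! g hg1 hg2 hg3 using fun (b : T) (hb : b ∈ B) => exists_least hT R.1 (hB b hb)
        refine ⟨{R' | s.1 ∈ R'.1} ∩ ((⋂ a ∈ A, {R' | a ∈ R'.1}) ∩ ⋂ b ∈ B, {R' | g b ∈ R'.1}ᶜ),
          ?_, ?_, ?_⟩
        · rintro R' ⟨h1, h2, h3⟩
          rw [mem_iInter₂] at h2 h3
          refine ⟨hAB R' h2 fun b hb hb' => h3 b hb (R'.2.down b hb' _ (hg1 b hb)), h1,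
            fun x hx hxt => ?_⟩
          by_contra hxL
          obtain ⟨R₂, hR₂, hx₂⟩ := hxt
          have hsx : s.1 ≤ x := by
            rcases R'.2.chain x hx s.1 h1 with h | h
            · exact absurd (hLle h) hxL
            · exact h
          have hs₂ : s.1 ∈ R₂.1 := R₂.2.down x hx₂ _ hsx
          have hL₂ := hLsub s.1 R₂ hR₂ hs₂
          apply hR₂
          refine hAB R₂ (fun a ha => hL₂ a (hRL a (hA a ha) (hcase a (hA a ha))))
            fun b hb hb' => ?_
          have hgb : g b ∈ R₂.1 := R₂.2.down b hb' _ (hg1 b hb)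
          rcases R₂.2.chain x hx₂ (g b) hgb with h | h
          · rcases h.lt_or_eq with h | h
            · have h4 := hg3 b hb x h
              exact hxL (hRL x h4 (hcase x h4))
            · exact h3 b hb (h ▸ hx)
          · exact h3 b hb (R'.2.down x hx _ h)
        · refine (isClopen_mem _).isOpen.inter (IsOpen.inter ?_ ?_)
          · exact isOpen_biInter_finset fun a _ => (isClopen_mem a).isOpen
          · exact isOpen_biInter_finset fun b _ => (isClopen_mem (g b)).compl.isOpen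
        · refine ⟨hsR, ?_, ?_⟩
          · rw [mem_iInter₂]; exact hA
          · rw [mem_iInter₂]; exact hg2
    · exact hU.inter (isClopen_mem _).isOpen
  -- the pieces are disjoint
  have hPd : ∀ i j, i ≠ j → Disjoint (P i) (P j) := by
    have hss : ∀ (s s' : M) (R : RaySpace T), R ∈ P (Sum.inl s) → R ∈ P (Sum.inl s') →
        ¬ s.1 < s'.1 := by
      rintro s s' R ⟨-, h1, h2⟩ ⟨-, h3, h4⟩ hlt
      obtain ⟨x, hx, hsx⟩ := h2 s'.1 h3 s'.2.1
      refine s'.2.2 s.1 hlt fun R₁ hR₁ => ⟨fun h => R₁.2.down _ h _ hlt.le, fun h => ?_⟩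
      exact R₁.2.down x ((hsx R₁ hR₁).1 h) _ hx
    have hst : ∀ (s : M) (t : E), Disjoint (P (Sum.inl s)) (P (Sum.inr t)) := by
      intro s t
      rw [Set.disjoint_left]
      rintro R ⟨-, h1, h2⟩ ⟨-, h3⟩
      have hlt : s.1 < t.1 := by
        rcases R.2.chain s.1 h1 t.1 h3 with h | h
        · rcases h.lt_or_eq with h | h
          · exact h
          · exact absurd (h ▸ s.2.1) t.2.1
        · exact absurd (htr h s.2.1) t.2.1
      exact t.2.2.2 s ⟨hlt, fun y hy => h2 y (R.2.down _ h3 _ hy.le) (t.2.2.1 y hy)⟩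
    rintro (s | t) (s' | t') hij
    · rw [Set.disjoint_left]
      intro R h1 h2
      apply hij
      congr 1
      apply Subtype.ext
      rcases R.2.chain s.1 h1.2.1 s'.1 h2.2.1 with h | h
      · rcases h.lt_or_eq with h | h
        · exact absurd h (hss s s' R h1 h2)
        · exact h
      · rcases h.lt_or_eq with h | h
        · exact absurd h (hss s' s R h2 h1)
        · exact h.symm
    · exact hst s t'
    · exact (hst s' t).symm
    · rw [Set.disjoint_left]
      intro R h1 h2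
      apply hij
      congr 1
      apply Subtype.ext
      rcases R.2.chain t.1 h1.2 t'.1 h2.2 with h | h
      · rcases h.lt_or_eq with h | h
        · exact absurd (t'.2.2.1 _ h) t.2.1
        · exact h
      · rcases h.lt_or_eq with h | h
        · exact absurd (t.2.2.1 _ h) t'.2.1
        · exact h.symm
  -- the pieces cover `U`
  have hPu : ∀ R ∈ U, ∃ i, R ∈ P i := by
    intro R hRU
    by_cases hcase : ∃ x ∈ R.1, ¬ tr x
    · obtain ⟨x, hx, hxt⟩ := hcase
      obtain ⟨t, htx, htt, htm⟩ := exists_least hT {y | tr y} hxt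
      have htR : t ∈ R.1 := R.2.down x hx t htx
      by_cases hE : ∀ s : M, ¬ (s.1 < t ∧ ∀ y < t, y ∈ L s.1)
      · exact ⟨Sum.inr ⟨t, htt, htm, hE⟩, hRU, htR⟩
      · push Not at hE
        obtain ⟨s, hst, hsL⟩ := hE
        refine ⟨Sum.inl s, hRU, R.2.down t htR _ hst.le, fun y hy hyt => ?_⟩
        rcases R.2.chain y hy t htR with h | h
        · rcases h.lt_or_eq with h | h
          · exact hsL y h
          · exact absurd (h ▸ hyt) htt
        · exact absurd (htr h hyt) htt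
    · push Not at hcase
      obtain ⟨A, B, hA, hB, hAB⟩ := exists_nhd hU hRU
      choose! g hg1 hg2 hg3 using fun (b : T) (hb : b ∈ B) => exists_least hT R.1 (hB b hb)
      -- a bound in the chain
      have hbound : ∀ F : Finset T, (∀ a ∈ F, a ∈ R.1) → ∃ s ∈ R.1, ∀ a ∈ F, a ≤ s := by
        intro F
        induction F using Finset.induction_on with
        | empty =>
          intro _
          obtain ⟨x, hx⟩ := R.2.nonempty
          exact ⟨x, hx, by simp⟩
        | insert a F ha ih =>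
          intro hF
          obtain ⟨s, hs, hsF⟩ := ih fun b hb => hF b (Finset.mem_insert_of_mem hb)
          have haR := hF a (Finset.mem_insert_self a F)
          rcases R.2.chain a haR s hs with h | h
          · refine ⟨s, hs, fun b hb => ?_⟩
            rcases Finset.mem_insert.1 hb with rfl | hb
            · exact h
            · exact hsF b hb
          · refine ⟨a, haR, fun b hb => ?_⟩
            rcases Finset.mem_insert.1 hb with rfl | hb
            · exact le_rfl
            · exact (hsF b hb).trans h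
      have hz : ∀ b, ∃ z ∈ R.1, (∃ z ∈ R.1, ¬ z < g b) → ¬ z < g b := by
        intro b
        by_cases h : ∃ z ∈ R.1, ¬ z < g b
        · obtain ⟨z, hz, hz'⟩ := h
          exact ⟨z, hz, fun _ => hz'⟩
        · obtain ⟨x, hx⟩ := R.2.nonempty
          exact ⟨x, hx, fun h' => absurd h' h⟩
      choose z hzR hz' using hz
      obtain ⟨s₀, hs₀, hs₀b⟩ := hbound (A ∪ B.image z) (by
        intro a ha
        rcases Finset.mem_union.1 ha with ha | ha
        · exact hA a ha
        · obtain ⟨b, -, rfl⟩ := Finset.mem_image.1 ha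
          exact hzR b)
      have hkey : ∀ x ∈ R.1, s₀ ≤ x → cls s₀ x := by
        intro x hx hsx R₂ hR₂
        refine ⟨fun hs₂ => ?_, fun h => R₂.2.down x h _ hsx⟩
        by_contra hx₂
        apply hR₂
        refine hAB R₂ (fun a ha => R₂.2.down _ hs₂ _ (hs₀b a (Finset.mem_union_left _ ha)))
          fun b hb hb' => ?_
        have hgb : g b ∈ R₂.1 := R₂.2.down b hb' _ (hg1 b hb)
        by_cases hex : ∃ z ∈ R.1, ¬ z < g b
        · have h1 := hz' b hex
          have h2 : z b ≤ s₀ := hs₀b _ (Finset.mem_union_right _ (Finset.mem_image_of_mem z hb))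
          have h3 : z b ∈ R₂.1 := R₂.2.down _ hs₂ _ h2
          rcases R₂.2.chain (z b) h3 (g b) hgb with h | h
          · rcases h.lt_or_eq with h | h
            · exact h1 h
            · exact hg2 b hb (h ▸ hzR b)
          · exact hg2 b hb (R.2.down _ (hzR b) _ h)
        · push Not at hex
          exact hx₂ (R₂.2.down _ hgb _ (hex x hx).le)
      obtain ⟨s, hs, hsmin⟩ := hT.wf.has_min {y | cls s₀ y} ⟨s₀, hcr s₀⟩
      have hs' : cls s₀ s := hs
      obtain ⟨R₂, hR₂, hs₂⟩ := hcase s₀ hs₀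
      have hsR₂ : s ∈ R₂.1 := (hs' R₂ hR₂).1 hs₂
      have hss₀ : s ≤ s₀ := by
        rcases R₂.2.chain s hsR₂ s₀ hs₂ with h | h
        · exact h
        · rcases h.lt_or_eq with h | h
          · exact absurd h (hsmin s₀ (hcr s₀))
          · exact le_of_eq h.symm
      refine ⟨Sum.inl ⟨s, ⟨R₂, hR₂, hsR₂⟩, fun y hy hsy => hsmin y (hct hs' hsy) hy⟩, hRU,
        R.2.down _ hs₀ _ hss₀, fun x hx _ => ?_⟩
      rcases R.2.chain x hx s₀ hs₀ with h | h
      · exact ⟨s₀, h, hcs hs'⟩
      · exact ⟨x, le_rfl, hct (hcs hs') (hkey x hx h)⟩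
  -- conclusion
  refine QR_sum (fun i => {u : U | u.1 ∈ P i}) (fun i => (hPo i).preimage continuous_subtype_val)
    (fun i j hij => ?_) (fun u => hPu u.1 u.2) ?_
  · rw [Set.disjoint_left]
    intro u h1 h2
    exact (Set.disjoint_left.1 (hPd i j hij)) h1 h2
  · rintro (s | t)
    · let S : Set T := {x | s.1 ≤ x ∧ ∀ y ≤ x, tr y → y ∈ L s.1}
      have hsS : s.1 ∈ S := ⟨le_rfl, fun y hy _ => hLle hy⟩
      have hSle : ∀ x ∈ S, s.1 ≤ x := fun x hx => hx.1
      have hSconv : ∀ x ∈ S, ∀ y, s.1 ≤ y → y ≤ x → y ∈ S :=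
        fun x hx y h1 h2 => ⟨h1, fun z hz hzt => hx.2 z (hz.trans h2) hzt⟩
      have hiff : ∀ R : RaySpace T, s.1 ∈ R.1 →
          ((∀ x ∈ R.1, s.1 ≤ x → x ∈ S) ↔ ∀ x ∈ R.1, tr x → x ∈ L s.1) := by
        intro R hsR
        constructor
        · intro h x hx hxt
          rcases R.2.chain x hx s.1 hsR with h1 | h1
          · exact hLle h1
          · exact (h x hx h1).2 x le_rfl hxt
        · intro h x hx hsx
          exact ⟨hsx, fun y hy hyt => h y (R.2.down x hx y hy) hyt⟩
      have hexc : ∀ R : RaySpace T, R ∉ U → s.1 ∈ R.1 → (∀ x ∈ R.1, tr x → x ∈ L s.1) →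
          R.1 = L s.1 := by
        intro R hR hsR hRL
        ext x
        exact ⟨fun hx => hRL x hx ⟨R, hR, hx⟩, fun hx => hLsub s.1 R hR hsR x hx⟩
      let e : {u : U | u.1 ∈ P (Sum.inl s)} → RaySpace T := fun v => v.1.1
      have he : Continuous e := continuous_subtype_val.comp continuous_subtype_val
      have hei : Function.Injective e := fun v w h => Subtype.ext (Subtype.ext h)
      by_cases hex : ∃ R₀ : RaySpace T, R₀ ∉ U ∧ s.1 ∈ R₀.1 ∧ ∀ x ∈ R₀.1, tr x → x ∈ L s.1
      · obtain ⟨R₀, hR₀U, hR₀s, hR₀L⟩ := hex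
        refine QR_of_embedding' hT s.1 S hsS hSle hSconv e he hei R₀
          ⟨hR₀s, (hiff R₀ hR₀s).2 hR₀L⟩ ?_
        intro R
        constructor
        · rintro ⟨v, rfl⟩
          have hv := v.2
          refine ⟨⟨hv.2.1, (hiff _ hv.2.1).2 hv.2.2⟩, fun h => hR₀U ?_⟩
          rw [← h]
          exact hv.1
        · rintro ⟨⟨h1, h2⟩, h3⟩
          have h4 := (hiff R h1).1 h2
          have h5 : R ∈ U := by
            by_contra h
            apply h3
            apply Subtype.ext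
            rw [hexc R h h1 h4, hexc R₀ hR₀U hR₀s hR₀L]
          exact ⟨⟨⟨R, h5⟩, h5, h1, h4⟩, rfl⟩
      · push Not at hex
        refine QR_of_embedding hT s.1 S hsS hSle hSconv e he hei ?_
        intro R
        constructor
        · rintro ⟨v, rfl⟩
          have hv := v.2
          exact ⟨hv.2.1, (hiff _ hv.2.1).2 hv.2.2⟩
        · rintro ⟨h1, h2⟩
          have h4 := (hiff R h1).1 h2
          have h5 : R ∈ U := by
            by_contra h
            obtain ⟨x, hx, hxt, hxL⟩ := hex R h h1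
            exact hxL (h4 x hx hxt)
          exact ⟨⟨⟨R, h5⟩, h5, h1, h4⟩, rfl⟩
    · refine QR_of_embedding hT t.1 {x | t.1 ≤ x} le_rfl (fun x hx => hx) (fun x hx y h1 _ => h1)
        (fun v : {u : U | u.1 ∈ P (Sum.inr t)} => v.1.1)
        (continuous_subtype_val.comp continuous_subtype_val)
        (fun v w h => Subtype.ext (Subtype.ext h)) ?_
      intro R
      constructor
      · rintro ⟨v, rfl⟩
        exact ⟨v.2.2, fun x _ h => h⟩
      · rintro ⟨h1, -⟩
        have h5 : R ∈ U := hntr t.2.1 h1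
        exact ⟨⟨⟨R, h5⟩, h5, h1⟩, rfl⟩

end Pool.Agent.R475.Ray
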